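import Pool.Agent.Helper19.SQ.GoalsH

/-!
# Project SQ (MP_bb32d1_al), packet FL: the filtration lemma
-/

set_option autoImplicit false

namespace Pool.Agent.Helper47.SQ

open Pool.Agent.Helper19.SQ

section

variable {R : Type} [Ring R] [Algebra ℂ R] {W : Type} [AddCommGroup W] [Module ℂ W] [Module R W]
  [IsScalarTower ℂ R W] {r : ℕ} (w : Fin r → W)

/-- the submodule generated by the `w i` with `i < n` -/
def Un (R : Type) [Ring R] {W : Type} [AddCommGroup W] [Module R W] {r : ℕ} (w : Fin r → W)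
    (n : ℕ) : Submodule R W :=
  Submodule.span R {f | ∃ i : Fin r, i.val < n ∧ f = w i}

theorem Un_eq (j : Fin r) : Un R w j.val = Submodule.span R {f | ∃ i, i < j ∧ f = w i} := rfl

theorem Un_mono {m n : ℕ} (h : m ≤ n) : Un R w m ≤ Un R w n := by
  apply Submodule.span_mono
  rintro f ⟨i, hi, rfl⟩
  exact ⟨i, by omega, rfl⟩

variable (J : Fin r → Submodule R R)
  (B : (j : Fin r) → Module.Basis (Fin (Module.finrank ℂ (R ⧸ J j))) ℂ (R ⧸ J j))
  (a : (j : Fin r) → Fin (Module.finrank ℂ (R ⧸ J j)) → R)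

/-- the new basis -/
def bs (x : (j : Fin r) × Fin (Module.finrank ℂ (R ⧸ J j))) : W := a x.1 x.2 • w x.1

theorem red (hJ : ∀ j, ∀ c ∈ J j, c • w j ∈ Un R w j.val)
    (ha : ∀ j k, Submodule.Quotient.mk (a j k) = B j k) (j : Fin r) (c : R) :
    c • w j - ∑ k, (B j).repr (Submodule.Quotient.mk c) k • bs w J a ⟨j, k⟩ ∈ Un R w j.val := by
  have h1 : c • w j - ∑ k, (B j).repr (Submodule.Quotient.mk c) k • bs w J a ⟨j, k⟩ =
      (c - ∑ k, (B j).repr (Submodule.Quotient.mk c) k • a j k) • w j := by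
    rw [sub_smul, Finset.sum_smul]
    congr 1
    refine Finset.sum_congr rfl fun k _ ↦ ?_
    rw [smul_assoc]
    rfl
  rw [h1]
  apply hJ
  have h2 : (Submodule.Quotient.mk (p := J j)
      (c - ∑ k, (B j).repr (Submodule.Quotient.mk c) k • a j k)) = 0 := by
    have h3 : Submodule.Quotient.mk (p := J j)
        (∑ k, (B j).repr (Submodule.Quotient.mk c) k • a j k) =
        ∑ k, (B j).repr (Submodule.Quotient.mk c) k • B j k := by
      have h4 := map_sum ((J j).mkQ) (fun k ↦ (B j).repr (Submodule.Quotient.mk c) k • a j k)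
        Finset.univ
      have h5 : Submodule.Quotient.mk (p := J j)
        (∑ k, (B j).repr (Submodule.Quotient.mk c) k • a j k) =
        ∑ k, (J j).mkQ ((B j).repr (Submodule.Quotient.mk c) k • a j k) := h4
      rw [h5]
      refine Finset.sum_congr rfl fun k _ ↦ ?_
      rw [← ha, Submodule.mkQ_apply, Submodule.Quotient.mk_smul]
    rw [Submodule.Quotient.mk_sub, h3, (B j).sum_repr, sub_self]
  exact (Submodule.Quotient.mk_eq_zero _).1 h2

theorem mem_span_bs (hJ : ∀ j, ∀ c ∈ J j, c • w j ∈ Un R w j.val)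
    (ha : ∀ j k, Submodule.Quotient.mk (a j k) = B j k) (n : ℕ) :
    ∀ x ∈ Un R w n, x ∈ Submodule.span ℂ (bs w J a '' {y | y.1.val < n}) := by
  induction n with
  | zero =>
    intro x hx
    have h1 : {f | ∃ i : Fin r, i.val < 0 ∧ f = w i} = (∅ : Set W) := by
      ext f
      simp
    unfold Un at hx
    rw [h1, Submodule.span_empty, Submodule.mem_bot] at hx
    rw [hx]
    exact Submodule.zero_mem _
  | succ n ih =>
    intro x hx
    have hmono : Submodule.span ℂ (bs w J a '' {y | y.1.val < n}) ≤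
        Submodule.span ℂ (bs w J a '' {y | y.1.val < n + 1}) := by
      apply Submodule.span_mono
      apply Set.image_mono
      intro y hy
      exact Nat.lt_succ_of_lt hy
    by_cases hn : n < r
    · have h1 : {f | ∃ i : Fin r, i.val < n + 1 ∧ f = w i} =
          insert (w ⟨n, hn⟩) {f | ∃ i : Fin r, i.val < n ∧ f = w i} := by
        ext f
        rw [Set.mem_insert_iff]
        constructor
        · rintro ⟨i, hi, rfl⟩
          rcases Nat.lt_succ_iff_lt_or_eq.1 hi with h | h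
          · exact Or.inr ⟨i, h, rfl⟩
          · left
            congr 1
            exact Fin.ext h
        · rintro (rfl | ⟨i, hi, rfl⟩)
          · exact ⟨⟨n, hn⟩, Nat.lt_succ_self n, rfl⟩
          · exact ⟨i, Nat.lt_succ_of_lt hi, rfl⟩
      unfold Un at hx
      rw [h1, Submodule.mem_span_insert] at hx
      obtain ⟨c, z, hz, rfl⟩ := hx
      have h2 := red w J B a hJ ha ⟨n, hn⟩ c
      have h3 := hmono (ih _ h2)
      have h4 := hmono (ih z hz)
      have h5 : ∑ k, (B ⟨n, hn⟩).repr (Submodule.Quotient.mk c) k • bs w J a ⟨⟨n, hn⟩, k⟩ ∈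
          Submodule.span ℂ (bs w J a '' {y | y.1.val < n + 1}) := by
        refine Submodule.sum_mem _ fun k _ ↦ Submodule.smul_mem _ _ (Submodule.subset_span ?_)
        exact ⟨⟨⟨n, hn⟩, k⟩, Nat.lt_succ_self n, rfl⟩
      have h6 := Submodule.add_mem _ (Submodule.add_mem _ h3 h5) h4
      rwa [sub_add_cancel] at h6
    · apply hmono
      apply ih
      have h1 : {f | ∃ i : Fin r, i.val < n + 1 ∧ f = w i} ⊆
          {f | ∃ i : Fin r, i.val < n ∧ f = w i} := by
        rintro f ⟨i, _, rfl⟩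
        exact ⟨i, by omega, rfl⟩
      exact Submodule.span_mono h1 hx

theorem span_top (hJ : ∀ j, ∀ c ∈ J j, c • w j ∈ Un R w j.val)
    (ha : ∀ j k, Submodule.Quotient.mk (a j k) = B j k)
    (hw : Submodule.span R (Set.range w) = ⊤) :
    ⊤ ≤ Submodule.span ℂ (Set.range (bs w J a)) := by
  intro x _
  have h1 : x ∈ Un R w r := by
    have h2 : x ∈ Submodule.span R (Set.range w) := by rw [hw]; trivial
    refine Submodule.span_mono ?_ h2
    rintro f ⟨i, rfl⟩
    exact ⟨i, i.2, rfl⟩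
  exact Submodule.span_mono (Set.image_subset_range _ _) (mem_span_bs w J B a hJ ha r x h1)

theorem card_sig : Fintype.card ((j : Fin r) × Fin (Module.finrank ℂ (R ⧸ J j))) =
    ∑ j, Module.finrank ℂ (R ⧸ J j) := by
  rw [Fintype.card_sigma]
  simp

/-- the coefficients of the elements of `Un` -/
theorem repr_zero (hJ : ∀ j, ∀ c ∈ J j, c • w j ∈ Un R w j.val)
    (ha : ∀ j k, Submodule.Quotient.mk (a j k) = B j k)
    (C : Module.Basis ((j : Fin r) × Fin (Module.finrank ℂ (R ⧸ J j))) ℂ W)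
    (hC : ⇑C = bs w J a) (j : Fin r) (k : Fin (Module.finrank ℂ (R ⧸ J j))) (x : W)
    (hx : x ∈ Un R w j.val) : C.repr x ⟨j, k⟩ = 0 := by
  have h1 := mem_span_bs w J B a hJ ha j.val x hx
  rw [← hC, C.mem_span_image] at h1
  by_contra h2
  have h3 := h1 (Finsupp.mem_support_iff.2 h2)
  have h4 : j.val < j.val := h3
  exact lt_irrefl _ h4

theorem fl_le (hJ : ∀ j, ∀ c ∈ J j, c • w j ∈ Un R w j.val)
    (ha : ∀ j k, Submodule.Quotient.mk (a j k) = B j k)
    (hw : Submodule.span R (Set.range w) = ⊤) :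
    Module.finrank ℂ W ≤ ∑ j, Module.finrank ℂ (R ⧸ J j) := by
  have htop := span_top w J B a hJ ha hw
  rw [← card_sig (R := R) J]
  have h1 := finrank_range_le_card (R := ℂ) (bs w J a)
  unfold Set.finrank at h1
  rw [top_le_iff.1 htop, finrank_top] at h1
  exact h1

theorem fl_tr (hJ : ∀ j, ∀ c ∈ J j, c • w j ∈ Un R w j.val)
    (ha : ∀ j k, Submodule.Quotient.mk (a j k) = B j k)
    (C : Module.Basis ((j : Fin r) × Fin (Module.finrank ℂ (R ⧸ J j))) ℂ W)
    (hC : ⇑C = bs w J a) (c : R) (F : W →ₗ[ℂ] W) (hF : ∀ x, F x = c • x)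
    (T : ∀ j, (R ⧸ J j) →ₗ[ℂ] (R ⧸ J j))
    (hT : ∀ j x, T j (Submodule.Quotient.mk x) = Submodule.Quotient.mk (c * x)) :
    LinearMap.trace ℂ W F = ∑ j, LinearMap.trace ℂ (R ⧸ J j) (T j) := by
  rw [LinearMap.trace_eq_matrix_trace ℂ C, Matrix.trace, Fintype.sum_sigma]
  refine Finset.sum_congr rfl fun j _ ↦ ?_
  rw [LinearMap.trace_eq_matrix_trace ℂ (B j), Matrix.trace]
  refine Finset.sum_congr rfl fun k _ ↦ ?_
  rw [Matrix.diag_apply, LinearMap.toMatrix_apply, hC, hF, Matrix.diag_apply,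
    LinearMap.toMatrix_apply, ← ha j k, hT]
  have h2 : c • bs w J a ⟨j, k⟩ = (c * a j k) • w j := by
    rw [mul_smul]
    rfl
  rw [h2]
  have h3 := red w J B a hJ ha j (c * a j k)
  have h4 := repr_zero w J B a hJ ha C hC j k _ h3
  rw [map_sub, Finsupp.sub_apply, sub_eq_zero] at h4
  rw [h4, map_sum, Finsupp.finsetSum_apply]
  rw [Finset.sum_eq_single k]
  · rw [map_smul, Finsupp.smul_apply, ← hC, C.repr_self, Finsupp.single_eq_same, smul_eq_mul,
      mul_one]
  · intro k' _ hk'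
    rw [map_smul, Finsupp.smul_apply, ← hC, C.repr_self, Finsupp.single_apply, if_neg,
      smul_zero]
    intro h
    apply hk'
    exact eq_of_heq (Sigma.mk.inj h).2
  · intro h
    exact absurd (Finset.mem_univ k) h

theorem fl_P (hJ : ∀ j, ∀ c ∈ J j, c • w j ∈ Un R w j.val)
    (ha : ∀ j k, Submodule.Quotient.mk (a j k) = B j k)
    (C : Module.Basis ((j : Fin r) × Fin (Module.finrank ℂ (R ⧸ J j))) ℂ W)
    (hC : ⇑C = bs w J a) (P : W →ₗ[R] W) (y : Fin r → ℂ)
    (hP : ∀ j, P (w j) - y j • w j ∈ Un R w j.val) (G : W →ₗ[ℂ] W) (hG : ∀ x, G x = P x) :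
    LinearMap.trace ℂ W G = ∑ j, y j * (Module.finrank ℂ (R ⧸ J j) : ℂ) := by
  rw [LinearMap.trace_eq_matrix_trace ℂ C, Matrix.trace, Fintype.sum_sigma]
  refine Finset.sum_congr rfl fun j _ ↦ ?_
  have h1 : ∀ k, (LinearMap.toMatrix C C G).diag ⟨j, k⟩ = y j := by
    intro k
    rw [Matrix.diag_apply, LinearMap.toMatrix_apply, hC, hG]
    have h2 : P (bs w J a ⟨j, k⟩) = y j • bs w J a ⟨j, k⟩ + a j k • (P (w j) - y j • w j) := by
      unfold bs
      rw [map_smul, smul_sub, smul_comm (y j) (a j k) (w j)]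
      abel
    have h3 : a j k • (P (w j) - y j • w j) ∈ Un R w j.val :=
      Submodule.smul_mem _ _ (hP j)
    rw [h2, map_add, Finsupp.add_apply, repr_zero w J B a hJ ha C hC j k _ h3, add_zero,
      map_smul, Finsupp.smul_apply, ← hC, C.repr_self, Finsupp.single_eq_same, smul_eq_mul,
      mul_one]
  rw [Finset.sum_congr rfl fun k _ ↦ h1 k, Finset.sum_const, Finset.card_univ, Fintype.card_fin,
    nsmul_eq_mul, mul_comm]

end

section

variable {R : Type} [Ring R] [Algebra ℂ R] {W : Type} [AddCommGroup W] [Module ℂ W] [Module R W]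
  [IsScalarTower ℂ R W] {r : ℕ} (w : Fin r → W) (J : Fin r → Submodule R R)

theorem fl_abs (hfin : FiniteDimensional ℂ R) [FiniteDimensional ℂ W]
    (hJ : ∀ j, ∀ c ∈ J j, c • w j ∈ Un R w j.val)
    (hw : Submodule.span R (Set.range w) = ⊤) :
    Module.finrank ℂ W ≤ ∑ j, Module.finrank ℂ (R ⧸ J j) ∧
    (Module.finrank ℂ W = ∑ j, Module.finrank ℂ (R ⧸ J j) →
      (∀ (c : R) (F : W →ₗ[ℂ] W) (T : ∀ j, (R ⧸ J j) →ₗ[ℂ] (R ⧸ J j)), (∀ x, F x = c • x) →
        (∀ j x, T j (Submodule.Quotient.mk x) = Submodule.Quotient.mk (c * x)) →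
        LinearMap.trace ℂ W F = ∑ j, LinearMap.trace ℂ (R ⧸ J j) (T j)) ∧
      ∀ (P : W →ₗ[R] W) (y : Fin r → ℂ), (∀ j, P (w j) - y j • w j ∈ Un R w j.val) →
        ∀ (G : W →ₗ[ℂ] W), (∀ x, G x = P x) →
        LinearMap.trace ℂ W G = ∑ j, y j * (Module.finrank ℂ (R ⧸ J j) : ℂ)) := by
  have hfinZ : ∀ j, Module.Finite ℂ (R ⧸ J j) := fun j ↦
    Module.Finite.of_surjective ((J j).mkQ.restrictScalars ℂ) (Submodule.mkQ_surjective _)
  have hex : ∀ (j : Fin r) (k : Fin (Module.finrank ℂ (R ⧸ J j))),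
      ∃ c : R, Submodule.Quotient.mk c = Module.finBasis ℂ (R ⧸ J j) k :=
    fun j k ↦ Submodule.Quotient.mk_surjective _ _
  choose a ha using hex
  have htop := span_top w J (fun j ↦ Module.finBasis ℂ (R ⧸ J j)) a hJ ha hw
  refine ⟨fl_le w J (fun j ↦ Module.finBasis ℂ (R ⧸ J j)) a hJ ha hw, fun heq ↦ ?_⟩
  have hcard : Fintype.card ((j : Fin r) × Fin (Module.finrank ℂ (R ⧸ J j))) =
      Module.finrank ℂ W := by rw [card_sig J, heq]
  refine ⟨fun c F T hF hT ↦ fl_tr w J (fun j ↦ Module.finBasis ℂ (R ⧸ J j)) a hJ ha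
    (basisOfTopLeSpanOfCardEqFinrank (bs w J a) htop hcard)
    (coe_basisOfTopLeSpanOfCardEqFinrank _ _ _) c F hF T hT,
    fun P y hP G hG ↦ fl_P w J (fun j ↦ Module.finBasis ℂ (R ⧸ J j)) a hJ ha
    (basisOfTopLeSpanOfCardEqFinrank (bs w J a) htop hcard)
    (coe_basisOfTopLeSpanOfCardEqFinrank _ _ _) P y hP G hG⟩

end

/-- **FL.** -/
theorem s_fl : S_FL := by
  intro N l _ q _ hfin W _ _ _ _ _ r w μ hE hK hw
  have hJ : ∀ j, ∀ c ∈ Jl q (μ j), c • w j ∈ Un (A N l q) w j.val := by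
    intro j
    have h1 : Jl q (μ j) ≤
        (Un (A N l q) w j.val).comap (LinearMap.toSpanSingleton (A N l q) W (w j)) := by
      unfold Jl
      rw [Submodule.span_le]
      rintro c (⟨k, rfl⟩ | ⟨i, rfl⟩)
      · exact hE j k
      · have h2 := hK j i
        have h3 : (gK N l q i - algebraMap ℂ (A N l q) (qz q (μ j i))) • w j =
            gK N l q i • w j - qz q (μ j i) • w j := by
          rw [sub_smul, algebraMap_smul]
        have h5 : (gK N l q i - algebraMap ℂ (A N l q) (qz q (μ j i))) • w j ∈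
            Un (A N l q) w j.val := by
          rw [h3]
          exact h2
        exact h5
    intro c hc
    exact h1 hc
  obtain ⟨h1, h2⟩ := fl_abs w (fun j ↦ Jl q (μ j)) hfin hJ hw
  refine ⟨h1, fun heq ↦ ?_⟩
  obtain ⟨h3, h4⟩ := h2 heq
  refine ⟨fun c ↦ ?_, fun P y hP ↦ ?_⟩
  · exact h3 c (lsm c) (fun j ↦ lsm (M := Zl q (μ j)) c) (fun _ ↦ rfl) (fun _ _ ↦ rfl)
  · exact h4 P y hP (P.restrictScalars ℂ) (fun _ ↦ rfl)

end Pool.Agent.Helper47.SQ
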